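import Pool.Agent.Run7.h90.AU.Poi

set_option autoImplicit false

/-!
# The Poisson law for rough numbers in the classes of thin families

Wagstaff's asymptotics for the largest least prime modulo `d` comes from the heuristics that the numbers of the primes up
to `λ φ(d) log d` in the classes modulo `d` have the Poisson distribution of mean `λ`, so that the least prime exceeds
`λ φ(d) log d` in `e ^ (-λ) φ(d)` of the classes. Here this law is proved, for prime moduli `m`, for the integers without
prime factors `≤ z` in place of the primes, `z ≤ m ^ δ` tending to infinity, in place of all the classes over families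
`(v_i)`, `i ∈ s`, of classes which may be very thin: it is enough that the exponential sums `∑ e(ξ v_i / m)`, `ξ ≠ 0`,
are at most `m ^ (-ε) |s|`. Examples: the values of a sparse polynomial of arbitrary degree on a subgroup of order
`m ^ η`, the values `c_1 g_1 ^ n + ... + c_k g_k ^ n`, `n < N`, `N ≥ m ^ η`.

Proof: equidistribution of the family in all residue classes modulo integers up to `m ^ δ` (bound of Bourgain,
Glibichuk and Konyagin, `Agent/Run7/h823/BK9`) and the fundamental lemma of the sieve, uniformly in its quality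
(`Agent/Run7/h90/AU/FundW`), give for all sets `H` of shifts the number of the `i` for which `n + h m`, `h ∈ H`, are all
free of primes `≤ z`; here `n ≡ v_i`, `M < n ≤ M + m` (`Cnt`). The mean value of the singular series
(`Agent/TH464/PO/Sing2`) gives the binomial moments, which determine the law (`Poi`).
-/

namespace Pool.Agent.Results.MP_458f0b_nt.PoissonLawInSparseClasses

open Finset
open Pool.Agent.Run7.h90.AU (SmallSums SparseSmall RecurrencesSmall)

/-- The product of `1 - 1 / q` over the primes `q ≤ z`. -/
noncomputable def density (z : ℕ) : ℝ := ∏ q ∈ (range (z + 1)).filter Nat.Prime, (1 - 1 / (q : ℝ))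

open scoped Classical in
/-- The number of the integers `n ≡ a` modulo `m`, `M < n ≤ M + T m`, without prime factors `≤ z`. -/
noncomputable def roughMembers (m : ℕ) (a : ZMod m) (M T z : ℕ) : ℕ :=
  ((Ioc M (M + T * m)).filter fun n : ℕ => (n : ZMod m) = a ∧ ∀ q : ℕ, q.Prime → q ≤ z → ¬ q ∣ n).card

/-- The probability of `A` for the Poisson distribution of mean `x`. -/
noncomputable def poisson (x : ℝ) (A : Finset ℕ) : ℝ := ∑ j ∈ A, Real.exp (-x) * x ^ j / j.factorial

open scoped Classical in
theorem result :
    (∀ ε x η : ℝ, 0 < ε → 0 < η → ∃ δ : ℝ, 0 < δ ∧ ∃ (z₀ : ℕ) (m₀ : ℝ), ∀ (m : ℕ) [Fact m.Prime], m₀ ≤ m →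
      ∀ (ι : Type) (s : Finset ι) (v : ι → ZMod m), SmallSums m ε s v →
      ∀ M z T : ℕ, z₀ ≤ z → (z : ℝ) ≤ (m : ℝ) ^ δ → T * density z ≤ x →
      ∀ A : Finset ℕ, |((s.filter fun i => roughMembers m (v i) M T z ∈ A).card : ℝ) -
        s.card * poisson (T * density z) A| ≤ η * s.card) ∧
    SparseSmall ∧ RecurrencesSmall := by
  refine ⟨?_, Pool.Agent.Run7.h90.AU.sparse_small, Pool.Agent.Run7.h90.AU.rec_small⟩
  intro ε x η hε hη
  obtain ⟨δ, hδ, z₀, P₀, H⟩ := Pool.Agent.Run7.h90.AU.poisson_law ε x η hε hη
  refine ⟨δ, hδ, z₀, P₀, ?_⟩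
  intro m _ hm ι s v hv M z T hz hzm hT A
  have h := H m hm ι s v hv M z T hz hzm hT A
  simp only [Pool.Agent.Run7.h90.AU.Wd_eq] at h
  exact h

end Pool.Agent.Results.MP_458f0b_nt.PoissonLawInSparseClasses
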