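import Pool.Agent.Run7.h246.LP.Apps

set_option autoImplicit false

/-!
# Large least primes in every set of vectors of residue classes which is stable under a large group of scalars

Write `f(x) = log x (log₂ x)² log₄ x / (log₃ x)²` for the record size of prime-free intervals, let `m` be a large
prime and let `p(c, m)` be the least prime in the class of `c` modulo `m`.  Let `H` be a group of nonzero residues
modulo `m` with at least `m ^ (1/2 + ε) / 2` elements, and let `w_1, …, w_n` be nonzero integers of size at most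
`m ^ (δ/4)`.  Let `S` be ANY set of at least `m ^ (n - 1 + ε)` vectors of residue classes modulo `m` such that
`(c_1, …, c_n) ∈ S` and `t ∈ H` imply `(t ^ w_1 c_1, …, t ^ w_n c_n) ∈ S`.  For at least `m ^ (-δ) |S| ∏ (L_j / m)`
members of `S` all the least primes `p(c_j, m)` are greater than `κ m f(m)`, and the `c_j` have representatives in
prescribed intervals `(M_j, M_j + L_j]` inside `[m ^ δ, m]` with `L_j ≥ m ^ δ` and `∏ L_j ≥ m ^ (n - ε + δ)`.  For
smaller sets `S` it is enough that, for every `α ≠ 0`, at most `|S| m ^ (-ε)` members of `S` satisfy all the equations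
`∑_{w_j = d} α_j c_j = 0`.

Examples.  (a) `n = 1`: every coset of every group of at least `m ^ (1/2 + ε) / 2` residues contains such classes;
so there are large least primes in the classes of the `k`-th power residues, `k ≤ m ^ (1/2 - ε)`, and of the
nonresidues of each kind.  (b) `w_j = j`: all coefficients of a polynomial `X ^ n + c_1 X ^ (n - 1) + … + c_n` which is
irreducible modulo `m` (or of a given squarefree type) can be classes with large least primes.  (c) `w = (4, 6)`: the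
classes `a`, `b` of an equation `y² = x³ + a x + b` of any given elliptic curve with `j ≠ 0, 1728`.
-/

namespace Pool.Agent.Results.MP_458f0b_nt.SetsStableUnderScalars

open Finset

/-- The record scale `f(x) = log x (log₂ x)² log₄ x / (log₃ x)²` (iterated natural logarithms). -/
noncomputable def f (x : ℝ) : ℝ :=
  Real.log x * (Real.log (Real.log x)) ^ 2 * Real.log (Real.log (Real.log (Real.log x))) /
    (Real.log (Real.log (Real.log x))) ^ 2

/-- The set `S` is stable under `c ↦ (t ^ (w j) c j)_j` for all `t` in `H`. -/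
def Stable {n m : ℕ} (H : Subgroup (ZMod m)ˣ) (w : Fin n → ℤ) (S : Finset (Fin n → ZMod m)) :
    Prop :=
  ∀ t ∈ H, ∀ c ∈ S, (fun j => ((t ^ w j : (ZMod m)ˣ) : ZMod m) * c j) ∈ S

open scoped Classical in
/-- **Large least primes in all sets of vectors of classes which are stable under a large group of scalars.** -/
theorem result (n : ℕ) (hn : 1 ≤ n) (ε δ : ℝ) (hε : 0 ≤ ε) (hδ : 0 < δ) (hδ1 : δ ≤ 1) :
    ∃ κ : ℝ, 0 < κ ∧ ∃ m₀ : ℕ, ∀ m : ℕ, m₀ ≤ m → m.Prime →
      ∀ H : Subgroup (ZMod m)ˣ, (m : ℝ) ^ (1 / 2 + ε) ≤ 2 * Nat.card H →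
      ∀ w : Fin n → ℤ, (∀ j, w j ≠ 0 ∧ |(w j : ℝ)| ≤ (m : ℝ) ^ (δ / 4)) →
      ∀ S : Finset (Fin n → ZMod m), S.Nonempty → Stable H w S →
      ((m : ℝ) ^ ((n : ℝ) - 1 + ε) ≤ S.card ∨ ∀ α : Fin n → ZMod m, α ≠ 0 →
        ((S.filter fun x => ∀ d : ℤ, ∑ j with w j = d, α j * x j = 0).card : ℝ) ≤
          S.card * (m : ℝ) ^ (-ε)) →
      ∀ (M : Fin n → ℤ) (L : Fin n → ℕ),
        (∀ j, (m : ℝ) ^ δ ≤ M j ∧ (m : ℝ) ^ δ ≤ L j ∧ M j + L j ≤ m) →
        (m : ℝ) ^ ((n : ℝ) - ε + δ) ≤ ∏ j, (L j : ℝ) →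
      (m : ℝ) ^ (-δ) * (S.card * ∏ j, ((L j : ℝ) / m)) ≤
        ((S.filter fun x => ∀ j, ∃ c : ℤ, M j < c ∧ c ≤ M j + L j ∧ (c : ZMod m) = x j ∧
          ∀ q : ℕ, q.Prime → (q : ℤ) ≡ c [ZMOD m] → κ * m * f m < q).card : ℝ) := by
  obtain ⟨κ, hκ, m₀, h⟩ := Pool.Agent.Run7.h246.LP.class_sets n hn ε δ hε hδ hδ1
  exact ⟨κ, hκ, m₀, fun m hm0 hm H hH w hw S hS hst hcon M L hL hvol =>
    h m hm0 hm H hH w hw S hS hst hcon M L hL hvol⟩

end Pool.Agent.Results.MP_458f0b_nt.SetsStableUnderScalars
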