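import Pool.Agent.Run7.h823.BKC

set_option autoImplicit false

/-!
# Large least primes in every family of vectors of residue classes stable under a small group of scalars

Write `f(x) = log x (log₂ x)² log₄ x / (log₃ x)²` for the record size of prime-free intervals, let `m` be a
large prime and let `p(c, m)` be the least prime in the class of `c` modulo `m`.  Let `H` be a group of
residues modulo `m`, `w_1, …, w_r` integers such that `|H| ≥ m ^ ε gcd(w_j, |H|)` and
`|H| ≥ m ^ ε gcd(w_i - w_j, |H|)` whenever `w_i ≠ w_j`, and let `R_i = (R_i1, …, R_ir)`, `i ∈ S`, be ANY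
finite family of vectors of residue classes modulo `m` with an action of `H` on `S` by permutations such that
`R_(t i) j = t ^ (w_j) R_ij`.  Suppose that for every `α ≠ 0` at most `|S| m ^ (-ε)` members satisfy all the
equations `∑_{w_j = d} α_j R_ij = 0`.  For at least `|S| m ^ (-ε)` members of the family all the least
primes `p(R_ij, m)` are greater than `κ m f(m)`, and the classes have representatives in prescribed intervals
of length `≥ m ^ (1 - δ)` inside `[m ^ ε, m]`.

Examples.  (a) Every coset of every group `H` of at least `m ^ ε` residues, and more generally every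
nonempty set `A ≠ {0}` of classes with `H A = A`, for example every sumset `H + H`, `H - H`, contains a class `c` with
`p(c, m) > κ m f(m)`.  (b) The vectors of power sums `(h_1 ^ k + … + h_n ^ k)_k`,
`k ≤ r`, with `h_1, …, h_n ∈ H`, if they vanish rarely (weights `w_k = k`). (c) All weights equal: `r` classes of a family of vectors stable under
multiplication by the elements of `H` and not concentrated on hyperplanes.

The theorem for `|H| ≥ m ^ (1/2 + ε) / 2` is `MP_458f0b_nt.SetsStableUnderScalars` (helper246), with smaller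
boxes.  Here `|H|` can be `m ^ ε`: proof by the method of Bourgain, Glibichuk and Konyagin
(`Pool.Agent.Run7.h823.BK`).
-/

namespace Pool.Agent.Results.MP_458f0b_nt.SmallScalarGroups

open Finset

/-- The record scale `f(x) = log x (log₂ x)² log₄ x / (log₃ x)²` (iterated natural logarithms). -/
noncomputable def f (x : ℝ) : ℝ :=
  Real.log x * (Real.log (Real.log x)) ^ 2 * Real.log (Real.log (Real.log (Real.log x))) /
    (Real.log (Real.log (Real.log x))) ^ 2

open scoped Classical in
/-- For all intervals `(M_j, M_j + L_j]` inside `[m ^ ε, m]` of length at least `m ^ (1 - δ)` at least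
`|s| m ^ (-ε)` of the vectors `v_i`, `i ∈ s`, have the following property: for all `j` the class `v_ij` modulo
`m` has its representative in `(M_j, M_j + L_j]` and contains no prime `≤ κ m f(m)`. -/
def ManyLarge (κ ε δ : ℝ) (m : ℕ) {ι : Type} {r : ℕ} (s : Finset ι) (v : ι → Fin r → ZMod m) :
    Prop :=
  ∀ (M : Fin r → ℤ) (L : Fin r → ℕ),
    (∀ j, (m : ℝ) ^ ε ≤ M j ∧ (m : ℝ) ^ (1 - δ) ≤ L j ∧ M j + L j ≤ m) →
    s.card * (m : ℝ) ^ (-ε) ≤ ((s.filter fun i => ∀ j, ∃ c : ℤ, M j < c ∧ c ≤ M j + L j ∧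
      (c : ZMod m) = v i j ∧ ∀ q : ℕ, q.Prime → (q : ℤ) ≡ c [ZMOD m] → κ * m * f m < q).card : ℝ)

open scoped Classical in
/-- **Large least primes in all families of vectors of classes stable under a small group of scalars.** -/
theorem result (r : ℕ) (hr : 1 ≤ r) (ε : ℝ) (hε : 0 < ε) :
    ∃ κ : ℝ, 0 < κ ∧ ∃ δ : ℝ, 0 < δ ∧ ∃ m₀ : ℕ, ∀ (m : ℕ) [Fact m.Prime], m₀ ≤ m →
    ∀ (H : Subgroup (ZMod m)ˣ) (w : Fin r → ℤ),
    (∀ j, (m : ℝ) ^ ε * Int.gcd (w j) (Nat.card H) ≤ Nat.card H) →
    (∀ i j, w i ≠ w j → (m : ℝ) ^ ε * Int.gcd (w i - w j) (Nat.card H) ≤ Nat.card H) →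
    ∀ (ι : Type) (S : Finset ι) (R : ι → Fin r → ZMod m) (act : (ZMod m)ˣ → ι → ι), S.Nonempty →
    (∀ t ∈ H, ∀ i ∈ S, act t i ∈ S) → (∀ t ∈ H, Set.InjOn (act t) S) →
    (∀ t ∈ H, ∀ i ∈ S, ∀ j, R (act t i) j = ((t ^ w j : (ZMod m)ˣ) : ZMod m) * R i j) →
    (∀ a : Fin r → ZMod m, a ≠ 0 →
      ((S.filter fun i => ∀ d : ℤ, ∑ j with w j = d, a j * R i j = 0).card : ℝ) ≤
        S.card * (m : ℝ) ^ (-ε)) →
    ManyLarge κ ε δ m S R :=
  Pool.Agent.Run7.h823.BK.class_stable r hr hε

end Pool.Agent.Results.MP_458f0b_nt.SmallScalarGroups
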