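import Pool.Agent.Run7.h294.S5

set_option autoImplicit false

/-! # Least primes in many classes at once, every modulus, uniform up to the record size

There are absolute constants `c, C > 0` and `d₀` such that for every modulus `d ≥ d₀`, every real
`A ≥ 0` and every finite set `S` of pairs `(h, r)` with `1 ≤ h ≤ √(log d)`, `0 ≤ r < d` and
`λ := (A + 1) ∑_{(h, r) ∈ S} h / φ(h) ≤ c log log d`, at least
`φ(d) exp(-C e^{C λ} (log log d)²)` of the reduced classes `a` modulo `d` have the property that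
none of the classes `h a + r` and `-(h a + r)` modulo `d`, `(h, r) ∈ S`, contains a prime up to
`A φ(d) log d`. -/

namespace Pool.Agent.Results.MP_458f0b_nt.UniformJointTail

theorem result : ∃ c C : ℝ, 0 < c ∧ 0 < C ∧ ∃ d₀ : ℕ, ∀ d : ℕ, d₀ ≤ d → ∀ A : ℝ, 0 ≤ A →
    ∀ S : Finset (ℕ × ℕ), (∀ z ∈ S, 1 ≤ z.1 ∧ (z.1 : ℝ) ^ 2 ≤ Real.log d ∧ z.2 < d) →
    (A + 1) * ∑ z ∈ S, (z.1 : ℝ) / z.1.totient ≤ c * Real.log (Real.log d) →
    (d.totient : ℝ) * Real.exp (-(C * Real.exp (C * ((A + 1) *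
      ∑ z ∈ S, (z.1 : ℝ) / z.1.totient)) * (Real.log (Real.log d)) ^ 2)) ≤
      (({a : ℕ | a < d ∧ a.Coprime d ∧ ∀ z ∈ S, ∀ n : ℤ,
        n ≡ (z.1 : ℤ) * a + z.2 [ZMOD (d : ℤ)] → |(n : ℝ)| ≤ A * d.totient * Real.log d →
          ¬ n.natAbs.Prime}).ncard : ℝ) := by
  obtain ⟨c, C, hc, hC, d₀, h⟩ := Run7.h294.S.main_t
  refine ⟨c, C, hc, hC, d₀, fun d hd A hA S hS hlam => ?_⟩
  classical
  have h1 := h d hd A hA S hS hlam
  refine h1.trans (le_of_eq ?_)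
  rw [← Set.ncard_coe_finset]
  congr 2
  ext a
  simp

end Pool.Agent.Results.MP_458f0b_nt.UniformJointTail
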